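import Pool.Agent.V1194.LP.Char

/-!
# The derivatives `ζ_S'(g, 0)` of the partial zeta functions, and Stark units, from the primes

Let `H/K` be a finite abelian extension of number fields with group `G`, `S` a finite set of finite primes of `K`
(with the archimedean places this is the set `S` of the rank one abelian Stark conjecture; it contains the
ramified primes), `L_S(s, χ) = ∏_{v ∉ S} (1 - χ(v) Nv^{-s})⁻¹` and
`ζ_S(g, s) = |G|⁻¹ ∑_χ χ(g)⁻¹ L_S(s, χ)` the partial zeta functions. If a place of `S` is totally split and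
`|S| ≥ 2`, then all `L_S(s, χ)` vanish at `s = 0`, and the conjecture of Stark asks for `ε` in a group `U` of
`S`-units of `H` with

`log |g(ε)| = -W ζ_S'(g, 0)` for all `g ∈ G`.

The point `s = 0` is far from the half plane `Re s > 1` of the Euler products. We show that nevertheless the
numbers `ζ_S'(g, 0)` are limits of explicit sums over primes. For a real number `γ > π/2` let

`W_χ(X) = ∑_{v ∉ S} ∑_{k ≥ 1} χ(v)^k/k · e^{iγu}/Γ(1 + u)`,  `u = k log Nv / log X`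

(the weights tend to `1` for `X → ∞`), and `Λ_γ = ∫_0^∞ (e^{-t} - e^{iγt}/Γ(1+t)) dt/t`. Then:

1. all `W_χ(X)`, `X > 1`, converge absolutely, and
   `ζ_S'(g, 0) = lim_{X → ∞} e^{-Λ_γ} log X · |G|⁻¹ ∑_χ χ(g)⁻¹ exp W_χ(X)`;
2. for every set `U` and every function `l(g, ε)` (in the conjecture `log |g(ε)|`, `ε ∈ U`): there is
   `ε ∈ U` with `l(g, ε) = -W ζ_S'(g, 0)` for all `g`, if and only if there is `ε ∈ U` with

   `l(g, ε) = lim_{X → ∞} -W e^{-Λ_γ} log X · |G|⁻¹ ∑_χ χ(g)⁻¹ exp W_χ(X)` for all `g`.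

So the existence of the Stark unit (without the condition that `H(ε^{1/W})/K` is abelian, which is a condition
on the same `ε`) is an explicit statement on the Frobenius automorphisms. No hypothesis is made on zeros, in
particular not on real zeros between `0` and `1`.
-/

set_option autoImplicit false

namespace Pool.Agent.Results.MP_ca56d1_nt.UnitsFromPrimes

open Filter Topology Set NumberField IsDedekindDomain

variable {K H : Type} [Field K] [NumberField K] [Field H] [NumberField H] [Algebra K H]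

/-- The norm of `v`. -/
noncomputable def nrm (v : HeightOneSpectrum (𝓞 K)) : ℕ := Ideal.absNorm v.asIdeal

/-- `g` is the Frobenius automorphism of a prime `Q` of `H` above `v`: `g(x) ≡ x^(N v)` modulo `Q`. -/
def IsFrobenius (v : HeightOneSpectrum (𝓞 K)) (g : H ≃ₐ[K] H) : Prop :=
  ∃ Q : Ideal (𝓞 H), Q.IsPrime ∧ Q.comap (algebraMap (𝓞 K) (𝓞 H)) = v.asIdeal ∧
    ∀ x y : 𝓞 H, (y : H) = g (x : H) → y - x ^ nrm v ∈ Q

/-- The group is abelian, the primes outside `S` are unramified in `H`, `frob v` is a Frobenius automorphism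
for `v ∉ S`, and `X` is the set of all characters of the group. -/
structure IsData (S : Finset (HeightOneSpectrum (𝓞 K)))
    (frob : HeightOneSpectrum (𝓞 K) → (H ≃ₐ[K] H)) (X : Finset ((H ≃ₐ[K] H) →* ℂˣ)) : Prop where
  comm : ∀ g h : H ≃ₐ[K] H, g * h = h * g
  unramified : ∀ v ∉ S, Squarefree (v.asIdeal.map (algebraMap (𝓞 K) (𝓞 H)))
  frobenius : ∀ v ∉ S, IsFrobenius v (frob v)
  characters : ∀ χ : (H ≃ₐ[K] H) →* ℂˣ, χ ∈ X

/-- `Λ(s) = L_S(s, χ)`: it is the Euler product for `Re s > 1`, meromorphic at the points of the real interval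
`[0, 1]`, and differentiable with the value `0` at `s = 0`. -/
structure IsLSeries (S : Finset (HeightOneSpectrum (𝓞 K)))
    (frob : HeightOneSpectrum (𝓞 K) → (H ≃ₐ[K] H)) (χ : (H ≃ₐ[K] H) →* ℂˣ) (Λ : ℂ → ℂ) : Prop where
  mero : ∀ x ∈ Icc (0 : ℝ) 1, MeromorphicAt Λ (x : ℂ)
  prod : ∀ s : ℂ, 1 < s.re → Λ s =
    ∏' v : {v : HeightOneSpectrum (𝓞 K) // v ∉ S}, (1 - (nrm v.1 : ℂ) ^ (-s) * (χ (frob v.1) : ℂ))⁻¹
  diff : DifferentiableAt ℂ Λ 0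
  zero : Λ 0 = 0

/-- The partial zeta function `ζ_S(g, s) = |G|⁻¹ ∑_χ χ(g)⁻¹ L_S(s, χ)`. -/
noncomputable def zeta (X : Finset ((H ≃ₐ[K] H) →* ℂˣ)) (Λ : ((H ≃ₐ[K] H) →* ℂˣ) → ℂ → ℂ)
    (g : H ≃ₐ[K] H) (s : ℂ) : ℂ :=
  (Nat.card (H ≃ₐ[K] H) : ℂ)⁻¹ * ∑ χ ∈ X, ((χ g)⁻¹ : ℂˣ) * Λ χ s

/-- The weight `e^{iγu} / Γ(1 + u)`. -/
noncomputable def weight (γ u : ℝ) : ℂ :=
  Complex.exp ((γ * u : ℝ) * Complex.I) / (Real.Gamma (1 + u) : ℂ)

/-- The term `χ(v)^k/k` times the weight at `u = k log Nv / log Y`. -/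
noncomputable def term (frob : HeightOneSpectrum (𝓞 K) → (H ≃ₐ[K] H)) (χ : (H ≃ₐ[K] H) →* ℂˣ)
    (γ Y : ℝ) (v : HeightOneSpectrum (𝓞 K)) (k : ℕ) : ℂ :=
  (χ (frob v) : ℂ) ^ k / k * weight γ (k * Real.log (nrm v) / Real.log Y)

/-- `W_χ(Y)`, the sum over `v ∉ S` and `k ≥ 1` (here `k = x.2 + 1`). -/
noncomputable def W (S : Finset (HeightOneSpectrum (𝓞 K)))
    (frob : HeightOneSpectrum (𝓞 K) → (H ≃ₐ[K] H)) (χ : (H ≃ₐ[K] H) →* ℂˣ) (γ Y : ℝ) : ℂ :=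
  ∑' x : {v : HeightOneSpectrum (𝓞 K) // v ∉ S} × ℕ, term frob χ γ Y x.1.1 (x.2 + 1)

/-- `Λ_γ = ∫_0^∞ (e^{-t} - e^{iγt} / Γ(1 + t)) dt / t`. -/
noncomputable def Lam (γ : ℝ) : ℂ := ∫ t in Ioi (0 : ℝ),
  (Complex.exp (-(t : ℂ)) - Complex.exp ((γ * t : ℝ) * Complex.I) * ((Real.Gamma (1 + t))⁻¹ : ℝ)) / t

/-- `e^{-Λ_γ} log Y · |G|⁻¹ ∑_χ χ(g)⁻¹ exp W_χ(Y)`. -/
noncomputable def approx (S : Finset (HeightOneSpectrum (𝓞 K)))
    (frob : HeightOneSpectrum (𝓞 K) → (H ≃ₐ[K] H)) (X : Finset ((H ≃ₐ[K] H) →* ℂˣ))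
    (g : H ≃ₐ[K] H) (γ Y : ℝ) : ℂ :=
  Complex.exp (-Lam γ) * Real.log Y * ((Nat.card (H ≃ₐ[K] H) : ℂ)⁻¹ *
    ∑ χ ∈ X, ((χ g)⁻¹ : ℂˣ) * Complex.exp (W S frob χ γ Y))

open Pool.Agent.V1194.LP

variable {S : Finset (HeightOneSpectrum (𝓞 K))} {frob : HeightOneSpectrum (𝓞 K) → (H ≃ₐ[K] H)}
  {χ : (H ≃ₐ[K] H) →* ℂˣ} {Λ : ℂ → ℂ} {γ : ℝ}

theorem norm_char (g : H ≃ₐ[K] H) : ‖(χ g : ℂ)‖ = 1 := by
  have h1 : χ g ^ Nat.card (H ≃ₐ[K] H) = 1 := by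
    rw [← map_pow, pow_card_eq_one', map_one]
  have h2 : (χ g : ℂ) ^ Nat.card (H ≃ₐ[K] H) = 1 := by
    rw [← Units.val_pow_eq_pow_val, h1, Units.val_one]
  have h3 := congrArg norm h2
  rw [norm_pow, norm_one] at h3
  exact (pow_eq_one_iff_of_nonneg (norm_nonneg _) Nat.card_pos.ne').1 h3

/-- the matrices -/
noncomputable def mat (frob : HeightOneSpectrum (𝓞 K) → (H ≃ₐ[K] H)) (χ : (H ≃ₐ[K] H) →* ℂˣ)
    (v : {v : HeightOneSpectrum (𝓞 K) | v ∉ S}) : Matrix (Fin 1) (Fin 1) ℂ :=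
  (χ (frob v.1) : ℂ) • (1 : Matrix (Fin 1) (Fin 1) ℂ)

theorem eul : Pool.Agent.V11288.LZ.Eul 1 0 (fun v : {v : HeightOneSpectrum (𝓞 K) | v ∉ S} =>
    (Ideal.absNorm v.1.asIdeal : ℝ)) (mat frob χ) :=
  eul_scal le_rfl (fun v => by exact_mod_cast Pool.Agent.H921R2.TatePole.two_le_nm v.1)
    (fun _ hx => (Pool.Agent.H921R2.TatePole.nm_summable hx).comp_injective
      Subtype.val_injective) (fun v => (norm_char _).le)

theorem term_eq (Y : ℝ) (x : {v : HeightOneSpectrum (𝓞 K) | v ∉ S} × ℕ) :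
    Pool.Agent.V11288.LZ.tm (fun v : {v : HeightOneSpectrum (𝓞 K) | v ∉ S} =>
      (Ideal.absNorm v.1.asIdeal : ℝ)) (mat frob χ) 0 γ Y x = term frob χ γ Y x.1.1 (x.2 + 1) := by
  unfold Pool.Agent.V11288.LZ.tm term weight Pool.Agent.V11288.LZ.wt nrm mat
  rw [Real.rpow_zero, Complex.ofReal_one, one_pow, mul_one, smul_pow, one_pow, Matrix.trace_smul,
    Matrix.trace_one, Fintype.card_fin, Nat.cast_one, smul_eq_mul, mul_one]

theorem W_eq (Y : ℝ) :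
    Pool.Agent.V11288.LZ.tot (fun v : {v : HeightOneSpectrum (𝓞 K) | v ∉ S} =>
      (Ideal.absNorm v.1.asIdeal : ℝ)) (mat frob χ) 0 γ Y = W S frob χ γ Y :=
  tsum_congr fun x => term_eq Y x

theorem prod_eq (hΛ : IsLSeries S frob χ Λ) (s : ℂ) (hs : 1 + 0 < s.re) :
    Λ s = ∏' v : {v : HeightOneSpectrum (𝓞 K) | v ∉ S},
      ((1 - (((Ideal.absNorm v.1.asIdeal : ℝ)) : ℂ) ^ (-s) • mat frob χ v).det)⁻¹ := by
  rw [hΛ.prod s (by linarith)]
  refine tprod_congr fun v => ?_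
  unfold mat nrm
  rw [Matrix.det_fin_one, Matrix.sub_apply, Matrix.one_apply_eq, Matrix.smul_apply,
    Matrix.smul_apply, Matrix.one_apply_eq, smul_eq_mul, smul_eq_mul, mul_one,
    Complex.ofReal_natCast]

theorem main (hΛ : IsLSeries S frob χ Λ) (hγ : Real.pi / 2 < γ) :
    (∀ Y : ℝ, 1 < Y → Summable fun x : {v : HeightOneSpectrum (𝓞 K) // v ∉ S} × ℕ =>
      ‖term frob χ γ Y x.1.1 (x.2 + 1)‖) ∧
    Tendsto (fun Y : ℝ => Complex.exp (-Lam γ) * Real.log Y * Complex.exp (W S frob χ γ Y)) atTop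
      (𝓝 (deriv Λ 0)) := by
  have hL : ∀ x ∈ Icc (0 : ℝ) (1 + 0), MeromorphicAt Λ (x : ℂ) := fun x hx =>
    hΛ.mero x ⟨hx.1, by linarith [hx.2]⟩
  obtain ⟨h1, -⟩ := package (eul (frob := frob) (χ := χ)) (L := Λ) 0 hL (prod_eq hΛ) hγ
  refine ⟨fun Y hY => (h1 Y hY).congr fun x => by rw [term_eq], ?_⟩
  have h2 := (coeff_iff (eul (frob := frob) (χ := χ)) (L := Λ) 0 hL (prod_eq hΛ) hγ 1
    (deriv Λ 0)).1 (by
      have h3 := hasDerivAt_iff_tendsto_slope_zero.1 hΛ.diff.hasDerivAt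
      rw [Complex.ofReal_zero]
      refine h3.congr fun s => ?_
      rw [hΛ.zero, zero_add, sub_zero, sub_zero, zpow_one, smul_eq_mul, div_eq_inv_mul])
  have h4 := h2.const_mul (Complex.exp (-Lam γ))
  have h5 : Complex.exp (-Lam γ) * (Complex.exp ((1 : ℤ) * Pool.Agent.W187.UR.Lam γ) *
      deriv Λ 0) = deriv Λ 0 := by
    rw [← mul_assoc, ← Complex.exp_add]
    have e1 : -Lam γ + ((1 : ℤ) : ℂ) * Pool.Agent.W187.UR.Lam γ = 0 := by
      rw [Int.cast_one, one_mul]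
      exact neg_add_cancel _
    rw [e1, Complex.exp_zero, one_mul]
  rw [h5] at h4
  refine h4.congr fun Y => ?_
  rw [W_eq, zpow_one, mul_assoc]

/-- **The derivatives of the partial zeta functions at `s = 0`, and Stark units, from the primes.** -/
theorem result (S : Finset (HeightOneSpectrum (𝓞 K))) (frob : HeightOneSpectrum (𝓞 K) → (H ≃ₐ[K] H))
    (X : Finset ((H ≃ₐ[K] H) →* ℂˣ)) (_ : IsData S frob X) (Λ : ((H ≃ₐ[K] H) →* ℂˣ) → ℂ → ℂ)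
    (hΛ : ∀ χ, IsLSeries S frob χ (Λ χ)) (γ : ℝ) (hγ : Real.pi / 2 < γ) :
    (∀ (χ : (H ≃ₐ[K] H) →* ℂˣ) (Y : ℝ), 1 < Y →
      Summable fun x : {v : HeightOneSpectrum (𝓞 K) // v ∉ S} × ℕ =>
        ‖term frob χ γ Y x.1.1 (x.2 + 1)‖) ∧
    (∀ g : H ≃ₐ[K] H, DifferentiableAt ℂ (zeta X Λ g) 0 ∧
      Tendsto (fun Y : ℝ => approx S frob X g γ Y) atTop (𝓝 (deriv (zeta X Λ g) 0))) ∧
    ∀ (U : Type) (l : (H ≃ₐ[K] H) → U → ℝ) (w : ℕ),
      (∃ ε : U, ∀ g : H ≃ₐ[K] H, (l g ε : ℂ) = -(w : ℂ) * deriv (zeta X Λ g) 0) ↔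
        ∃ ε : U, ∀ g : H ≃ₐ[K] H,
          Tendsto (fun Y : ℝ => -(w : ℂ) * approx S frob X g γ Y) atTop (𝓝 (l g ε : ℂ)) := by
  have key : ∀ g : H ≃ₐ[K] H, DifferentiableAt ℂ (zeta X Λ g) 0 ∧
      Tendsto (fun Y : ℝ => approx S frob X g γ Y) atTop (𝓝 (deriv (zeta X Λ g) 0)) := by
    intro g
    have h1 : HasDerivAt (zeta X Λ g) ((Nat.card (H ≃ₐ[K] H) : ℂ)⁻¹ *
        ∑ χ ∈ X, ((χ g)⁻¹ : ℂˣ) * deriv (Λ χ) 0) 0 := by
      unfold zeta
      refine HasDerivAt.const_mul _ ?_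
      refine HasDerivAt.fun_sum fun χ _ => ?_
      exact (hΛ χ).diff.hasDerivAt.const_mul _
    refine ⟨h1.differentiableAt, ?_⟩
    rw [h1.deriv]
    have h2 : Tendsto (fun Y : ℝ => (Nat.card (H ≃ₐ[K] H) : ℂ)⁻¹ * ∑ χ ∈ X, ((χ g)⁻¹ : ℂˣ) *
        (Complex.exp (-Lam γ) * Real.log Y * Complex.exp (W S frob χ γ Y))) atTop
        (𝓝 ((Nat.card (H ≃ₐ[K] H) : ℂ)⁻¹ * ∑ χ ∈ X, ((χ g)⁻¹ : ℂˣ) * deriv (Λ χ) 0)) := by
      refine Tendsto.const_mul _ (tendsto_finsetSum _ fun χ _ => Tendsto.const_mul _ ?_)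
      exact (main (hΛ χ) hγ).2
    refine h2.congr fun Y => ?_
    unfold approx
    rw [mul_left_comm]
    congr 1
    rw [Finset.mul_sum]
    refine Finset.sum_congr rfl fun χ _ => ?_
    ring
  refine ⟨fun χ => (main (hΛ χ) hγ).1, key, fun U l w => exists_congr fun ε => forall_congr' fun g => ?_⟩
  have h1 := (key g).2.const_mul (-(w : ℂ))
  constructor
  · intro h
    rw [h]
    exact h1
  · intro h
    exact tendsto_nhds_unique h h1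

end Pool.Agent.Results.MP_ca56d1_nt.UnitsFromPrimes
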